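import Pool.Agent.Lib.MP_cb2e5b_nt.Abc

/-!
# MP_cb2e5b_nt : a weak form of the abc conjecture implies that there are many non-representable
integers

If `c ≤ K rad(abc) ^ κ` for all coprime positive `a + b = c`, for some constants `K` and
`κ < 20/19`, then at least `c N ^ (5/6) / log N` integers `n ≤ N` are not of the form
`x ^ k - y ^ l` with `x, y ≥ 1`, `k, l ≥ 2`.
-/

namespace Pool.Agent.Results.MP_cb2e5b_nt.AbcImpliesMany

/-- `n` is a difference of two perfect powers of positive integers. -/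
def Representable (n : ℕ) : Prop :=
  ∃ x y k l : ℕ, 0 < x ∧ 0 < y ∧ 2 ≤ k ∧ 2 ≤ l ∧ n + y ^ l = x ^ k

theorem result (κ K : ℝ) (hκ : κ < 20 / 19)
    (habc : ∀ a b c : ℕ, 0 < a → 0 < b → Nat.Coprime a b → a + b = c →
      (c : ℝ) ≤ K * ((∏ p ∈ (a * b * c).primeFactors, p : ℕ) : ℝ) ^ κ) :
    ∃ c : ℝ, 0 < c ∧ ∃ N₀ : ℕ, ∀ N : ℕ, N₀ ≤ N →
      c * ((N : ℝ) ^ (5 / 6 : ℝ) / Real.log N) ≤
        (({n : ℕ | 0 < n ∧ n ≤ N ∧ ¬ Representable n}.ncard : ℕ) : ℝ) :=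
  PerfectPowerDiff.many_of_abc hκ habc

end Pool.Agent.Results.MP_cb2e5b_nt.AbcImpliesMany
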