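import Pool.Agent.Lib.MP_cb2e5b_nt.Fifth.Main

/-!
# MP_cb2e5b_nt : almost all `n ≡ 2 mod 4` have only high representations as `x ^ k - y ^ l`
-/

namespace Pool.Agent.Results.MP_cb2e5b_nt.AlmostAllHigh

/-- The exponent of the height for the exponents `k, l`: the largest of `6`, `k`, `l`. -/
def height (k l : ℕ) : ℕ := max 6 (max k l)

/-- `n` has a representation `n = x ^ k - y ^ l` with `x ^ k ≤ n ^ ((1 - ε) * height k l)` and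
`x ^ k ≤ exp (n ^ c)`. -/
def LowRep (ε c : ℝ) (n : ℕ) : Prop :=
  ∃ x y k l : ℕ, 0 < x ∧ 0 < y ∧ 2 ≤ k ∧ 2 ≤ l ∧ n + y ^ l = x ^ k ∧
    ((x ^ k : ℕ) : ℝ) ≤ (n : ℝ) ^ ((1 - ε) * height k l) ∧
    ((x ^ k : ℕ) : ℝ) ≤ Real.exp ((n : ℝ) ^ c)

theorem result (ε : ℝ) (hε : 0 < ε) : ∃ c C δ : ℝ, 0 < c ∧ 0 < δ ∧ ∀ N : ℕ, 1 ≤ N →
    (({n : ℕ | n ≤ N ∧ n % 4 = 2 ∧ LowRep ε c n}.ncard : ℕ) : ℝ) ≤ C * (N : ℝ) ^ (1 - δ) :=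
  PerfectPowerDiff.Fifth.almost_all ε hε

end Pool.Agent.Results.MP_cb2e5b_nt.AlmostAllHigh
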