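import Pool.Agent.Lib.MP_cb2e5b_nt.Abc

/-!
# MP_cb2e5b_nt : many integers with only very high representations as `x ^ k - y ^ l`

For all large `N` there are at least `c N ^ (5/6) / log N` integers `1 ≤ n ≤ N` such that in every
representation `n = x ^ k - y ^ l` (`x, y ≥ 1`, `k, l ≥ 2`) the power `x ^ k` exceeds `n ^ 4`, the
exponents are coprime, and no two primes `p ∣ k`, `q ∣ l` with `p, q ≤ 7` occur, except
`(p, q) = (5, 2), (2, 7), (7, 2)`.
-/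

namespace Pool.Agent.Results.MP_cb2e5b_nt.OnlyHighRepresentations

/-- Every representation of `n` as a difference of two perfect powers is high and of a restricted
type. -/
def HighOnly (n : ℕ) : Prop :=
  ∀ x y k l : ℕ, 0 < x → 0 < y → 2 ≤ k → 2 ≤ l → n + y ^ l = x ^ k →
    n ^ 4 < x ^ k ∧ Nat.Coprime k l ∧
      ∀ p ∈ ({2, 3, 5, 7} : Finset ℕ), ∀ q ∈ ({2, 3, 5, 7} : Finset ℕ), p ∣ k → q ∣ l →
        (p, q) = (5, 2) ∨ (p, q) = (2, 7) ∨ (p, q) = (7, 2)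

theorem result : ∃ c : ℝ, 0 < c ∧ ∃ N₀ : ℕ, ∀ N : ℕ, N₀ ≤ N →
    c * ((N : ℝ) ^ (5 / 6 : ℝ) / Real.log N) ≤
      (({n : ℕ | 0 < n ∧ n ≤ N ∧ HighOnly n}.ncard : ℕ) : ℝ) :=
  PerfectPowerDiff.many_good

end Pool.Agent.Results.MP_cb2e5b_nt.OnlyHighRepresentations
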